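import Mathlib

/-!
# Triangle-free `C₄`-saturated graphs of every large order (MP_02bc1b_co)

Let `F` be a field with `q = 2 ^ k` elements and `χ : F → {1, -1}` a nontrivial additive character.
The graph on `{(x, y) ∈ F² : χ x = -1}` in which `u ~ v` if and only if `det (u, v) = 1` has no
triangle and no `4`-cycle.  For non-adjacent `u ≠ w` the number of paths `u, v, v', w` of length `3`
is a Kloosterman type sum, and an elementary fourth moment bound shows that it is at least `q / 8`.
A random colouring of `F²` with four colours then gives a set of at most a quarter of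
the vertices that meets one such path for all pairs, so every set of vertices containing it
induces a triangle-free `C₄`-saturated graph.
-/

set_option autoImplicit false

namespace Pool.Agent.MP02bc1b.Core

open Finset

/-! ## The colouring lemma -/

section Colouring

variable {α σ ι : Type} [Fintype α] [DecidableEq α] [DecidableEq σ] [DecidableEq ι]

/-- colourings for which no index in `S` has both of its points coloured `c` -/
def Bad (g h : σ → α) (S : Finset σ) (c : Fin 4) : Finset (α → Fin 4) :=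
  univ.filter fun f => ∀ s ∈ S, ¬ (f (g s) = c ∧ f (h s) = c)

lemma bad_card (g h : σ → α) (c : Fin 4) (S : Finset σ)
    (hg : ∀ s ∈ S, ∀ t ∈ S, g s = g t → s = t) (hh : ∀ s ∈ S, ∀ t ∈ S, h s = h t → s = t)
    (hgh : ∀ s ∈ S, ∀ t ∈ S, g s ≠ h t) :
    16 ^ S.card * (Bad g h S c).card ≤ 15 ^ S.card * 4 ^ (Fintype.card α) := by
  induction S using Finset.induction_on with
  | empty =>
    simp only [card_empty, pow_zero, one_mul]
    calc (Bad g h ∅ c).card ≤ (univ : Finset (α → Fin 4)).card := card_le_card (subset_univ _)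
      _ = 4 ^ (Fintype.card α) := by simp
  | insert s₀ S hs₀ ih =>
    have ih' := ih (fun s hs t ht => hg s (mem_insert_of_mem hs) t (mem_insert_of_mem ht))
      (fun s hs t ht => hh s (mem_insert_of_mem hs) t (mem_insert_of_mem ht))
      (fun s hs t ht => hgh s (mem_insert_of_mem hs) t (mem_insert_of_mem ht))
    set B := Bad g h S c with hB
    set C := B.filter (fun f => f (g s₀) = c ∧ f (h s₀) = c) with hC
    have hins : Bad g h (insert s₀ S) c = B.filter (fun f => ¬ (f (g s₀) = c ∧ f (h s₀) = c)) := by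
      ext f
      simp only [hB, Bad, mem_filter, mem_univ, true_and, mem_insert, forall_eq_or_imp]
      tauto
    have hsplit : C.card + (Bad g h (insert s₀ S) c).card = B.card := by
      rw [hins, hC]
      exact card_filter_add_card_filter_not (s := B) _
    have hBC : B.card ≤ 16 * C.card := by
      have hinj : B.card ≤ (C ×ˢ (univ : Finset (Fin 4 × Fin 4))).card := by
        apply card_le_card_of_injOn
          (fun f => (Function.update (Function.update f (g s₀) c) (h s₀) c, (f (g s₀), f (h s₀))))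
        · intro f hf
          have hf' : ∀ s ∈ S, ¬ (f (g s) = c ∧ f (h s) = c) := by
            simpa [hB, Bad] using hf
          have hne : g s₀ ≠ h s₀ := hgh s₀ (mem_insert_self _ _) s₀ (mem_insert_self _ _)
          simp only [coe_product, coe_univ, Set.mem_prod, Set.mem_univ, and_true, mem_coe]
          rw [hC, mem_filter]
          refine ⟨?_, ?_, ?_⟩
          · rw [hB, Bad, mem_filter]
            refine ⟨mem_univ _, fun s hs => ?_⟩
            have h1 : g s ≠ g s₀ := fun he => hs₀ (by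
              rw [← hg s (mem_insert_of_mem hs) s₀ (mem_insert_self _ _) he]; exact hs)
            have h2 : g s ≠ h s₀ := hgh s (mem_insert_of_mem hs) s₀ (mem_insert_self _ _)
            have h3 : h s ≠ g s₀ := (hgh s₀ (mem_insert_self _ _) s (mem_insert_of_mem hs)).symm
            have h4 : h s ≠ h s₀ := fun he => hs₀ (by
              rw [← hh s (mem_insert_of_mem hs) s₀ (mem_insert_self _ _) he]; exact hs)
            rw [Function.update_of_ne h2, Function.update_of_ne h1, Function.update_of_ne h4,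
              Function.update_of_ne h3]
            exact hf' s hs
          · rw [Function.update_of_ne hne, Function.update_self]
          · rw [Function.update_self]
        · intro f _ f' _ heq
          simp only [Prod.mk.injEq] at heq
          obtain ⟨h1, h2, h3⟩ := heq
          funext x
          by_cases hx : x = h s₀
          · rw [hx]; exact h3
          by_cases hx' : x = g s₀
          · rw [hx']; exact h2
          have := congrFun h1 x
          rwa [Function.update_of_ne hx, Function.update_of_ne hx', Function.update_of_ne hx,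
            Function.update_of_ne hx'] at this
      rw [card_product] at hinj
      simp only [card_univ, Fintype.card_prod, Fintype.card_fin] at hinj
      linarith
    rw [card_insert_of_notMem hs₀, pow_succ, pow_succ]
    have h16 : 16 * (Bad g h (insert s₀ S) c).card ≤ 15 * B.card := by omega
    calc 16 ^ S.card * 16 * (Bad g h (insert s₀ S) c).card
        = 16 ^ S.card * (16 * (Bad g h (insert s₀ S) c).card) := by ring
      _ ≤ 16 ^ S.card * (15 * B.card) := Nat.mul_le_mul_left _ h16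
      _ = 15 * (16 ^ S.card * B.card) := by ring
      _ ≤ 15 * (15 ^ S.card * 4 ^ (Fintype.card α)) := Nat.mul_le_mul_left _ ih'
      _ = 15 ^ S.card * 15 * 4 ^ (Fintype.card α) := by ring

lemma colouring (m : ℕ) (I : Finset ι) (S : ι → Finset σ) (g h : ι → σ → α)
    (hm : ∀ i ∈ I, m ≤ (S i).card)
    (hg : ∀ i ∈ I, ∀ s ∈ S i, ∀ t ∈ S i, g i s = g i t → s = t)
    (hh : ∀ i ∈ I, ∀ s ∈ S i, ∀ t ∈ S i, h i s = h i t → s = t)
    (hgh : ∀ i ∈ I, ∀ s ∈ S i, ∀ t ∈ S i, g i s ≠ h i t)
    (hI : 4 * I.card * 15 ^ m < 16 ^ m) :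
    ∃ f : α → Fin 4, ∀ i ∈ I, ∀ c : Fin 4, ∃ s ∈ S i, f (g i s) = c ∧ f (h i s) = c := by
  by_contra hcon
  push Not at hcon
  -- choose subsets of size exactly `m`
  have hT : ∀ i ∈ I, ∃ T ⊆ S i, T.card = m := fun i hi => exists_subset_card_eq (hm i hi)
  choose! T hTS hTm using hT
  have hcov : (univ : Finset (α → Fin 4)) ⊆
      I.biUnion (fun i => (univ : Finset (Fin 4)).biUnion (fun c => Bad (g i) (h i) (T i) c)) := by
    intro f _
    obtain ⟨i, hi, c, hc⟩ := hcon f
    rw [mem_biUnion]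
    refine ⟨i, hi, ?_⟩
    rw [mem_biUnion]
    refine ⟨c, mem_univ _, ?_⟩
    rw [Bad, mem_filter]
    exact ⟨mem_univ _, fun s hs hh' => hc s (hTS i hi hs) hh'.1 hh'.2⟩
  have h1 : (4 ^ (Fintype.card α)) ≤ ∑ i ∈ I, ∑ c : Fin 4, (Bad (g i) (h i) (T i) c).card := by
    calc (4 ^ (Fintype.card α)) = (univ : Finset (α → Fin 4)).card := by simp
      _ ≤ _ := card_le_card hcov
      _ ≤ ∑ i ∈ I, ((univ : Finset (Fin 4)).biUnion (fun c => Bad (g i) (h i) (T i) c)).card :=
          card_biUnion_le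
      _ ≤ _ := sum_le_sum fun i _ => card_biUnion_le
  have h2 : 16 ^ m * (4 ^ (Fintype.card α)) ≤ (4 * I.card * 15 ^ m) * 4 ^ (Fintype.card α) := by
    calc 16 ^ m * (4 ^ (Fintype.card α))
        ≤ 16 ^ m * ∑ i ∈ I, ∑ c : Fin 4, (Bad (g i) (h i) (T i) c).card :=
          Nat.mul_le_mul_left _ h1
      _ = ∑ i ∈ I, ∑ c : Fin 4, 16 ^ m * (Bad (g i) (h i) (T i) c).card := by
          rw [mul_sum]; exact sum_congr rfl fun i _ => by rw [mul_sum]
      _ ≤ ∑ i ∈ I, ∑ c : Fin 4, 15 ^ m * 4 ^ (Fintype.card α) := by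
          refine sum_le_sum fun i hi => sum_le_sum fun c _ => ?_
          have := bad_card (g i) (h i) c (T i)
            (fun s hs t ht => hg i hi s (hTS i hi hs) t (hTS i hi ht))
            (fun s hs t ht => hh i hi s (hTS i hi hs) t (hTS i hi ht))
            (fun s hs t ht => hgh i hi s (hTS i hi hs) t (hTS i hi ht))
          rwa [hTm i hi] at this
      _ = (4 * I.card * 15 ^ m) * 4 ^ (Fintype.card α) := by
          simp only [sum_const, card_univ, Fintype.card_fin, smul_eq_mul]
          ring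
  have h3 : (4 * I.card * 15 ^ m) * 4 ^ (Fintype.card α) < 16 ^ m * 4 ^ (Fintype.card α) :=
    Nat.mul_lt_mul_of_pos_right hI (by positivity)
  omega

end Colouring

/-! ## Kloosterman sums -/

section Char

variable {F : Type} [Field F] [Fintype F] [DecidableEq F] [CharP F 2]

/-- a nontrivial additive character with values `1` and `-1` -/
structure IsChar (χ : F → ℤ) : Prop where
  pm : ∀ x, χ x = 1 ∨ χ x = -1
  add : ∀ x y, χ (x + y) = χ x * χ y
  nontriv : ∃ x, χ x = -1

variable {χ : F → ℤ}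

omit [Fintype F] [DecidableEq F] [CharP F 2] in
lemma IsChar.zero (h : IsChar χ) : χ 0 = 1 := by
  rcases h.pm 0 with h0 | h0
  · exact h0
  · have := h.add 0 0
    rw [add_zero, h0] at this
    norm_num at this

omit [Fintype F] [DecidableEq F] [CharP F 2] in
lemma IsChar.sq (h : IsChar χ) (x : F) : χ x * χ x = 1 := by
  rcases h.pm x with h0 | h0 <;> rw [h0] <;> norm_num

omit [DecidableEq F] [CharP F 2] in
lemma IsChar.sum_mul (h : IsChar χ) {a : F} (ha : a ≠ 0) : ∑ x, χ (a * x) = 0 := by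
  obtain ⟨x₀, hx₀⟩ := h.nontriv
  have h1 : ∑ x, χ (a * x) = ∑ x, χ (a * (x + a⁻¹ * x₀)) :=
    (Equiv.sum_comp (Equiv.addRight (a⁻¹ * x₀)) (fun x => χ (a * x))).symm
  have h2 : ∀ x, χ (a * (x + a⁻¹ * x₀)) = - χ (a * x) := by
    intro x
    have : a * (x + a⁻¹ * x₀) = a * x + x₀ := by field_simp
    rw [this, h.add, hx₀]; ring
  rw [sum_congr rfl (fun x _ => h2 x), sum_neg_distrib] at h1
  omega

omit [CharP F 2] in
lemma IsChar.sum_mul' (h : IsChar χ) (a : F) :
    ∑ x, χ (a * x) = if a = 0 then (Fintype.card F : ℤ) else 0 := by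
  split_ifs with ha
  · subst ha; simp [h.zero]
  · exact h.sum_mul ha

omit [DecidableEq F] [CharP F 2] in
lemma IsChar.sum_one (h : IsChar χ) : ∑ x, χ x = 0 := by
  simpa using h.sum_mul (one_ne_zero (α := F))

/-- the nonzero elements -/
def R (F : Type) [Field F] [Fintype F] [DecidableEq F] : Finset F := univ.filter (· ≠ 0)

/-- Kloosterman sums -/
def K (χ : F → ℤ) (a b : F) : ℤ := ∑ r ∈ R F, χ (a * r + b * r⁻¹)

omit [CharP F 2] in
lemma K_scale (χ : F → ℤ) {a : F} (ha : a ≠ 0) (k : F) : K χ a (k * a⁻¹) = K χ 1 k := by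
  unfold K
  refine sum_bij' (fun r _ => a * r) (fun r _ => a⁻¹ * r) ?_ ?_ ?_ ?_ ?_
  · intro r hr; simp only [R, mem_filter, mem_univ, true_and] at hr ⊢; exact mul_ne_zero ha hr
  · intro r hr; simp only [R, mem_filter, mem_univ, true_and] at hr ⊢
    exact mul_ne_zero (inv_ne_zero ha) hr
  · intro r hr; field_simp
  · intro r hr; field_simp
  · intro r hr
    congr 1
    rw [mul_inv]; ring

omit [CharP F 2] in
lemma K_sq (h : IsChar χ) (a b : F) :
    K χ a b ^ 2 = ∑ p ∈ R F ×ˢ R F, χ (a * (p.1 + p.2) + b * (p.1⁻¹ + p.2⁻¹)) := by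
  rw [sq, K, sum_mul_sum, sum_product]
  refine sum_congr rfl fun x _ => sum_congr rfl fun y _ => ?_
  rw [← h.add]
  congr 1; ring

omit [CharP F 2] in
lemma K_four (h : IsChar χ) (a b : F) :
    K χ a b ^ 4 = ∑ p ∈ (R F ×ˢ R F) ×ˢ (R F ×ˢ R F),
      χ (a * ((p.1.1 + p.1.2) + (p.2.1 + p.2.2)) +
        b * ((p.1.1⁻¹ + p.1.2⁻¹) + (p.2.1⁻¹ + p.2.2⁻¹))) := by
  rw [show (4 : ℕ) = 2 + 2 from rfl, pow_add, K_sq h, sum_mul_sum,
    sum_product (R F ×ˢ R F) (R F ×ˢ R F)]
  refine sum_congr rfl fun x _ => sum_congr rfl fun y _ => ?_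
  rw [← h.add]
  congr 1; ring

/-- the quadruples counted by the fourth moment -/
def T (F : Type) [Field F] [Fintype F] [DecidableEq F] : Finset ((F × F) × (F × F)) :=
  ((R F ×ˢ R F) ×ˢ (R F ×ˢ R F)).filter (fun p =>
    ((p.1.1 + p.1.2) + (p.2.1 + p.2.2)) = 0 ∧ ((p.1.1⁻¹ + p.1.2⁻¹) + (p.2.1⁻¹ + p.2.2⁻¹)) = 0)

lemma T_card : (T F).card ≤ 3 * (R F).card ^ 2 := by
  classical
  have hsub : T F ⊆ ((R F ×ˢ R F).image (fun p : F × F => ((p.1, p.1), (p.2, p.2)))) ∪
      ((R F ×ˢ R F).image (fun p : F × F => ((p.1, p.2), (p.1, p.2)))) ∪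
      ((R F ×ˢ R F).image (fun p : F × F => ((p.1, p.2), (p.2, p.1)))) := by
    rintro ⟨⟨r1, r2⟩, ⟨r3, r4⟩⟩ hp
    simp only [T, mem_filter, mem_product] at hp
    obtain ⟨⟨⟨h1, h2⟩, h3, h4⟩, hs, hi⟩ := hp
    have n1 : r1 ≠ 0 := by simpa [R] using h1
    have n2 : r2 ≠ 0 := by simpa [R] using h2
    have n3 : r3 ≠ 0 := by simpa [R] using h3
    have n4 : r4 ≠ 0 := by simpa [R] using h4
    have h2' : (2 : F) = 0 := CharTwo.two_eq_zero
    have e4 : r4 = r1 + r2 + r3 := by
      have : r4 + r4 = 0 := CharTwo.add_self_eq_zero r4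
      linear_combination hs - (r1 + r2 + r3) * h2'
    have key : (r1 + r2) * (r3 + r1) * (r3 + r2) = 0 := by
      have h5 : (r1 + r2) * (r3 * r4) + (r3 + r4) * (r1 * r2) = 0 := by
        field_simp at hi
        linear_combination hi
      rw [e4] at h5
      linear_combination h5 - (r1 * r2 * r3) * h2'
    simp only [mem_union, mem_image, mem_product, Prod.exists, Prod.mk.injEq]
    rcases mul_eq_zero.mp key with hk | hk
    · rcases mul_eq_zero.mp hk with hk | hk
      · left; left
        have e12 : r1 = r2 := by linear_combination hk - r2 * h2'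
        refine ⟨r1, r3, ⟨h1, h3⟩, ⟨rfl, e12⟩, rfl, ?_⟩
        rw [e4, ← e12]; linear_combination - r1 * h2'
      · left; right
        have e31 : r3 = r1 := by linear_combination hk - r1 * h2'
        refine ⟨r1, r2, ⟨h1, h2⟩, ⟨rfl, rfl⟩, e31.symm, ?_⟩
        rw [e4, e31]; linear_combination - r1 * h2'
    · right
      have e32 : r3 = r2 := by linear_combination hk - r2 * h2'
      refine ⟨r1, r2, ⟨h1, h2⟩, ⟨rfl, rfl⟩, e32.symm, ?_⟩
      rw [e4, e32]; linear_combination - r2 * h2'
  calc (T F).card ≤ _ := card_le_card hsub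
    _ ≤ _ := card_union_le _ _
    _ ≤ ((R F).card ^ 2 + (R F).card ^ 2) + (R F).card ^ 2 := by
        have hcard : ∀ φ : F × F → (F × F) × (F × F),
            ((R F ×ˢ R F).image φ).card ≤ (R F).card ^ 2 := fun φ => by
          calc _ ≤ (R F ×ˢ R F).card := card_image_le
            _ = _ := by rw [card_product, sq]
        exact Nat.add_le_add ((card_union_le _ _).trans (Nat.add_le_add (hcard _) (hcard _)))
          (hcard _)
    _ = _ := by ring

omit [CharP F 2] in
lemma R_card : ((R F).card : ℤ) = Fintype.card F - 1 := by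
  have : (R F).card + 1 = Fintype.card F := by
    have h1 := card_filter_add_card_filter_not (s := (univ : Finset F)) (· ≠ 0)
    have h2 : (univ.filter (fun x : F => ¬ (x ≠ 0))).card = 1 := by
      rw [card_eq_one]; exact ⟨0, by ext x; simp⟩
    rw [h2] at h1
    simpa [R] using h1
  omega

lemma moment (h : IsChar χ) :
    ∑ a, ∑ b, K χ a b ^ 4 = (Fintype.card F : ℤ) ^ 2 * (T F).card := by
  have h1 : ∀ a b, K χ a b ^ 4 = _ := fun a b => K_four h a b
  simp_rw [h1]
  have h2 : ∀ a : F, (∑ b, ∑ p ∈ (R F ×ˢ R F) ×ˢ (R F ×ˢ R F),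
      χ (a * ((p.1.1 + p.1.2) + (p.2.1 + p.2.2)) +
        b * ((p.1.1⁻¹ + p.1.2⁻¹) + (p.2.1⁻¹ + p.2.2⁻¹)))) =
      ∑ p ∈ (R F ×ˢ R F) ×ˢ (R F ×ˢ R F), ∑ b,
      χ (a * ((p.1.1 + p.1.2) + (p.2.1 + p.2.2)) +
        b * ((p.1.1⁻¹ + p.1.2⁻¹) + (p.2.1⁻¹ + p.2.2⁻¹))) := fun a => sum_comm
  simp_rw [h2]
  rw [sum_comm]
  have h3 : ∀ p : (F × F) × (F × F), (∑ a, ∑ b,
      χ (a * ((p.1.1 + p.1.2) + (p.2.1 + p.2.2)) +
        b * ((p.1.1⁻¹ + p.1.2⁻¹) + (p.2.1⁻¹ + p.2.2⁻¹)))) =
      if (((p.1.1 + p.1.2) + (p.2.1 + p.2.2)) = 0 ∧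
        ((p.1.1⁻¹ + p.1.2⁻¹) + (p.2.1⁻¹ + p.2.2⁻¹)) = 0) then (Fintype.card F : ℤ) ^ 2 else 0 := by
    intro p
    set A := ((p.1.1 + p.1.2) + (p.2.1 + p.2.2)) with hA
    set B := ((p.1.1⁻¹ + p.1.2⁻¹) + (p.2.1⁻¹ + p.2.2⁻¹)) with hB
    have h4 : ∀ a : F, ∑ b, χ (a * A + b * B) = χ (A * a) * ∑ b, χ (B * b) := by
      intro a
      rw [mul_sum]
      refine sum_congr rfl fun b _ => ?_
      rw [h.add, mul_comm a A, mul_comm b B]
    simp_rw [h4]
    rw [← sum_mul, h.sum_mul', h.sum_mul']
    by_cases hA0 : A = 0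
    · by_cases hB0 : B = 0
      · simp only [hA0, hB0, if_true, and_self]; ring
      · simp only [hA0, hB0, if_true, if_false, and_false, mul_zero]
    · simp only [hA0, if_false, false_and, zero_mul]
  simp_rw [h3]
  rw [← sum_filter, sum_const, T]
  simp only [nsmul_eq_mul]
  ring

lemma K_bound (h : IsChar χ) (k : F) : K χ 1 k ^ 4 ≤ 3 * (Fintype.card F : ℤ) ^ 3 := by
  have h1 : ∑ a ∈ R F, K χ a (k * a⁻¹) ^ 4 ≤ ∑ a, ∑ b, K χ a b ^ 4 := by
    calc ∑ a ∈ R F, K χ a (k * a⁻¹) ^ 4 ≤ ∑ a ∈ R F, ∑ b, K χ a b ^ 4 := by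
          refine sum_le_sum fun a _ => ?_
          exact single_le_sum (f := fun b => K χ a b ^ 4)
            (fun b _ => Even.pow_nonneg (by decide) _) (mem_univ (k * a⁻¹))
      _ ≤ _ := sum_le_univ_sum_of_nonneg fun a => sum_nonneg fun b _ => Even.pow_nonneg (by decide) _
  have h2 : ∑ a ∈ R F, K χ a (k * a⁻¹) ^ 4 = (R F).card * K χ 1 k ^ 4 := by
    rw [sum_congr rfl (g := fun _ => K χ 1 k ^ 4), sum_const, nsmul_eq_mul]
    intro a ha
    rw [K_scale χ (by simpa [R] using ha)]
  rw [h2, moment h] at h1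
  have hT : ((T F).card : ℤ) ≤ 3 * ((R F).card : ℤ) ^ 2 := by exact_mod_cast T_card (F := F)
  have hR := R_card (F := F)
  have hq : (1 : ℤ) < Fintype.card F := by exact_mod_cast Fintype.one_lt_card
  have hRpos : (0 : ℤ) < (R F).card := by omega
  have h3 : ((R F).card : ℤ) * K χ 1 k ^ 4 ≤
      ((R F).card : ℤ) * (3 * (Fintype.card F : ℤ) ^ 2 * (R F).card) := by
    calc ((R F).card : ℤ) * K χ 1 k ^ 4 ≤ (Fintype.card F : ℤ) ^ 2 * (T F).card := h1
      _ ≤ (Fintype.card F : ℤ) ^ 2 * (3 * ((R F).card : ℤ) ^ 2) :=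
          mul_le_mul_of_nonneg_left hT (by positivity)
      _ = _ := by ring
  have h4 := le_of_mul_le_mul_left h3 hRpos
  calc K χ 1 k ^ 4 ≤ 3 * (Fintype.card F : ℤ) ^ 2 * (R F).card := h4
    _ ≤ 3 * (Fintype.card F : ℤ) ^ 2 * Fintype.card F :=
        mul_le_mul_of_nonneg_left (by omega) (by positivity)
    _ = _ := by ring

lemma K_bound' (h : IsChar χ) (k : F) (hq : 1024 ≤ Fintype.card F) :
    |4 * K χ 1 k| ≤ Fintype.card F := by
  have h1 := K_bound h k
  have hq' : (1024 : ℤ) ≤ Fintype.card F := by exact_mod_cast hq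
  generalize (Fintype.card F : ℤ) = q at h1 hq' ⊢
  have h2 : |4 * K χ 1 k| ^ 4 ≤ q ^ 4 := by
    rw [pow_abs, abs_of_nonneg (Even.pow_nonneg (by decide) _)]
    calc (4 * K χ 1 k) ^ 4 = 256 * K χ 1 k ^ 4 := by ring
      _ ≤ 256 * (3 * q ^ 3) := by linarith
      _ = 768 * q ^ 3 := by ring
      _ ≤ q * q ^ 3 := mul_le_mul_of_nonneg_right (by omega) (by positivity)
      _ = q ^ 4 := by ring
  exact le_of_pow_le_pow_left₀ (by norm_num) (by omega) h2

end Char


section Count

variable {F : Type} [Field F] [Fintype F] [DecidableEq F] [CharP F 2] {χ : F → ℤ}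

/-- the parameters of the paths of length three -/
def Par (χ : F → ℤ) (a b d : F) : Finset F :=
  univ.filter (fun s => χ s = -1 ∧ d * s + b ≠ 0 ∧ χ (a * (s + b) / (d * s + b)) = -1)

omit [CharP F 2] in
lemma par_card (h : IsChar χ) (a b d : F) : (4 : ℤ) * (Par χ a b d).card =
    ∑ s ∈ univ.filter (fun s => d * s + b ≠ 0), (1 - χ s) * (1 - χ (a * (s + b) / (d * s + b))) := by
  have h1 : Par χ a b d = (univ.filter (fun s => d * s + b ≠ 0)).filter
      (fun s => χ s = -1 ∧ χ (a * (s + b) / (d * s + b)) = -1) := by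
    ext s; simp only [Par, mem_filter, mem_univ, true_and]; tauto
  rw [h1, card_filter]
  push_cast
  rw [mul_sum]
  refine sum_congr rfl fun s _ => ?_
  rcases h.pm s with h2 | h2 <;> rcases h.pm (a * (s + b) / (d * s + b)) with h3 | h3 <;>
    rw [h2, h3] <;> norm_num

omit [CharP F 2] in
lemma sum_R (h : IsChar χ) : ∑ r ∈ R F, χ r = -1 := by
  have h1 := h.sum_one
  have h2 := sum_filter_add_sum_filter_not (univ : Finset F) (· ≠ 0) χ
  have h3 : ∑ x ∈ univ.filter (fun x : F => ¬ (x ≠ 0)), χ x = 1 := by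
    have : univ.filter (fun x : F => ¬ (x ≠ 0)) = {0} := by ext x; simp
    rw [this, sum_singleton, h.zero]
  rw [h3, h1] at h2
  have : ∑ r ∈ R F, χ r = ∑ x ∈ univ.filter (fun x : F => x ≠ 0), χ x := rfl
  rw [this]; linarith

omit [CharP F 2] in
lemma sum_R' (h : IsChar χ) {k : F} (hk : k ≠ 0) : ∑ r ∈ R F, χ (k * r⁻¹) = -1 := by
  rw [← sum_R h]
  refine sum_bij' (fun r _ => k * r⁻¹) (fun r _ => k * r⁻¹) ?_ ?_ ?_ ?_ ?_
  · intro r hr; simp only [R, mem_filter, mem_univ, true_and] at hr ⊢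
    exact mul_ne_zero hk (inv_ne_zero hr)
  · intro r hr; simp only [R, mem_filter, mem_univ, true_and] at hr ⊢
    exact mul_ne_zero hk (inv_ne_zero hr)
  · intro r hr; field_simp
  · intro r hr; field_simp
  · intro r hr; rfl

lemma one_add_ne {d : F} (hd : d ≠ 1) : 1 + d ≠ 0 := by
  intro h0
  apply hd
  have h2 : (2 : F) = 0 := CharTwo.two_eq_zero
  linear_combination h0 - h2

lemma count (h : IsChar χ) (hq : 1024 ≤ Fintype.card F) {a b d : F} (ha : χ a = -1) (hb : χ b = -1)
    (hd : d ≠ 1) (hab : d = 0 → a ≠ b) : Fintype.card F ≤ 8 * (Par χ a b d).card := by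
  have h2 : (2 : F) = 0 := CharTwo.two_eq_zero
  have hb0 : b ≠ 0 := by rintro rfl; rw [h.zero] at hb; norm_num at hb
  have ha0 : a ≠ 0 := by rintro rfl; rw [h.zero] at ha; norm_num at ha
  have hcard := par_card h a b d
  have hqz : (1024 : ℤ) ≤ Fintype.card F := by exact_mod_cast hq
  by_cases hd0 : d = 0
  · subst hd0
    have hne := hab rfl
    have h1 : univ.filter (fun s : F => 0 * s + b ≠ 0) = univ := by
      ext s; simp [hb0]
    rw [h1] at hcard
    have h3 : ∀ s : F, (1 - χ s) * (1 - χ (a * (s + b) / (0 * s + b))) =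
        1 + χ ((a / b) * s) - χ (1 * s) - χ ((1 + a / b) * s) := by
      intro s
      have e1 : a * (s + b) / (0 * s + b) = a / b * s + a := by
        rw [zero_mul, zero_add]; field_simp
      have e2 : (1 + a / b) * s = s + a / b * s := by ring
      rw [e1, e2, h.add, h.add, ha, one_mul]; ring
    rw [sum_congr rfl (fun s _ => h3 s)] at hcard
    simp only [sum_add_distrib, sum_sub_distrib] at hcard
    have hc : a / b ≠ 0 := div_ne_zero ha0 hb0
    have hc1 : 1 + a / b ≠ 0 := one_add_ne (fun hh => hne (by field_simp at hh; exact hh))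
    rw [h.sum_mul hc, h.sum_mul hc1, h.sum_mul one_ne_zero] at hcard
    simp only [sum_const, card_univ, nsmul_eq_mul, mul_one] at hcard
    omega
  · have hs : ∑ s ∈ univ.filter (fun s => d * s + b ≠ 0),
        (1 - χ s) * (1 - χ (a * (s + b) / (d * s + b))) =
        ∑ r ∈ R F, (1 - χ (b / d + r)) * (1 - χ (a / d + (a * (b / d + b) / d) * r⁻¹)) := by
      refine sum_bij' (fun s _ => s + b / d) (fun r _ => b / d + r) ?_ ?_ ?_ ?_ ?_
      · intro s hs; simp only [R, mem_filter, mem_univ, true_and] at hs ⊢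
        intro h0; apply hs
        have : d * s + b = d * (s + b / d) := by field_simp
        rw [this, h0, mul_zero]
      · intro r hr; simp only [R, mem_filter, mem_univ, true_and] at hr ⊢
        have : d * (b / d + r) + b = d * r := by
          have : d * (b / d + r) + b = d * r + 2 * b := by field_simp; ring
          rw [this, h2]; ring
        rw [this]; exact mul_ne_zero hd0 hr
      · intro s _; linear_combination (b / d) * h2
      · intro r _; linear_combination (b / d) * h2
      · intro s hs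
        simp only [mem_filter, mem_univ, true_and] at hs
        have e1 : b / d + (s + b / d) = s := by linear_combination (b / d) * h2
        have hne : s + b / d ≠ 0 := by
          intro h0; apply hs
          have : d * s + b = d * (s + b / d) := by field_simp
          rw [this, h0, mul_zero]
        have e2 : a * (s + b) / (d * s + b) = a / d + (a * (b / d + b) / d) * (s + b / d)⁻¹ := by
          have h4 : d * s + b = d * (s + b / d) := by field_simp
          have h5 : s + b = (s + b / d) + (b / d + b) := by linear_combination (-(b / d)) * h2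
          have key : ∀ t c : F, t ≠ 0 → a * (t + c) / (d * t) = a / d + (a * c / d) * t⁻¹ := by
            intro t c ht; field_simp
          rw [h4, h5]
          exact key _ _ hne
        rw [e1, e2]
    rw [hs] at hcard
    set k := a * (b / d + b) / d with hk
    have hk0 : k ≠ 0 := by
      have : b / d + b = b * (1 + d) / d := by field_simp
      rw [hk, this]
      exact div_ne_zero (mul_ne_zero ha0 (div_ne_zero (mul_ne_zero hb0 (one_add_ne hd)) hd0)) hd0
    have h3 : ∀ r : F, (1 - χ (b / d + r)) * (1 - χ (a / d + k * r⁻¹)) =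
        1 - χ (b / d) * χ r - χ (a / d) * χ (k * r⁻¹) +
          χ (b / d) * χ (a / d) * χ (1 * r + k * r⁻¹) := by
      intro r
      rw [h.add, h.add, h.add, one_mul]; ring
    rw [sum_congr rfl (fun r _ => h3 r)] at hcard
    simp only [sum_add_distrib, sum_sub_distrib, ← mul_sum] at hcard
    rw [sum_R h, sum_R' h hk0] at hcard
    have hK : ∑ r ∈ R F, χ (1 * r + k * r⁻¹) = K χ 1 k := rfl
    rw [hK] at hcard
    simp only [sum_const, nsmul_eq_mul, mul_one] at hcard
    rw [R_card] at hcard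
    have hKb := abs_le.mp (K_bound' h k hq)
    rcases h.pm (b / d) with h4 | h4 <;> rcases h.pm (a / d) with h5 | h5 <;>
      rw [h4, h5] at hcard <;> omega

end Count


/-! ## The graph -/

section Graph

variable {F : Type} [Field F]

/-- the determinant in characteristic two -/
def det (u w : F × F) : F := u.1 * w.2 + u.2 * w.1

lemma det_comm (u w : F × F) : det u w = det w u := by unfold det; ring

variable [CharP F 2]

lemma det_self (u : F × F) : det u u = 0 := by
  have h2 : (2 : F) = 0 := CharTwo.two_eq_zero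
  unfold det; linear_combination (u.1 * u.2) * h2

lemma tri_fst {u v w : F × F} (h1 : det u v = 1) (h2 : det v w = 1) (h3 : det u w = 1) :
    w.1 = u.1 + v.1 := by
  have h0 : (2 : F) = 0 := CharTwo.two_eq_zero
  unfold det at *
  linear_combination (-w.1) * h1 + (-u.1) * h2 + (-v.1) * h3 +
    (u.1 * v.1 * w.2 + u.1 * v.2 * w.1 + u.2 * v.1 * w.1 - u.1 - v.1) * h0

lemma common_unique {p p' x x' : F × F} (hp : p ≠ p') (h1 : det x p = 1) (h2 : det x p' = 1)
    (h3 : det x' p = 1) (h4 : det x' p' = 1) : x = x' := by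
  have h0 : (2 : F) = 0 := CharTwo.two_eq_zero
  have e1 : ∀ p : F × F, det x p = 1 → det x' p = 1 → p.1 * det x x' = x.1 - x'.1 := by
    intro p h1 h3
    unfold det at *
    linear_combination (-x'.1) * h1 + (-x.1) * h3 +
      (x'.1 * x.1 * p.2 + x'.1 * x.2 * p.1 + x.1 * x'.2 * p.1 - x.1) * h0
  have e2 : ∀ p : F × F, det x p = 1 → det x' p = 1 → p.2 * det x x' = x.2 - x'.2 := by
    intro p h1 h3
    unfold det at *
    linear_combination (-x'.2) * h1 + (-x.2) * h3 +
      (x'.2 * x.1 * p.2 + x'.2 * x.2 * p.1 + x.2 * x'.1 * p.2 - x.2) * h0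
  have hD : det x x' = 0 := by
    by_contra hD
    apply hp
    have a1 : p.1 * det x x' = p'.1 * det x x' := by rw [e1 p h1 h3, e1 p' h2 h4]
    have a2 : p.2 * det x x' = p'.2 * det x x' := by rw [e2 p h1 h3, e2 p' h2 h4]
    exact Prod.ext (mul_right_cancel₀ hD a1) (mul_right_cancel₀ hD a2)
  have b1 := e1 p h1 h3
  have b2 := e2 p h1 h3
  rw [hD, mul_zero] at b1 b2
  exact Prod.ext (sub_eq_zero.mp b1.symm) (sub_eq_zero.mp b2.symm)

/-- the second vertex of the path with parameter `s` -/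
def pg (u : F × F) (s : F) : F × F := (s, (1 + u.2 * s) / u.1)

/-- the third vertex of the path with parameter `s` -/
def ph (u w : F × F) (s : F) : F × F :=
  ((s + w.1) / ((det u w * s + w.1) / u.1), ((1 + u.2 * s) / u.1 + w.2) / ((det u w * s + w.1) / u.1))

lemma det_pg {u : F × F} (hu : u.1 ≠ 0) (s : F) : det u (pg u s) = 1 := by
  have h0 : (2 : F) = 0 := CharTwo.two_eq_zero
  unfold det pg
  field_simp
  linear_combination (s * u.2) * h0

lemma det_pg_w {u w : F × F} (hu : u.1 ≠ 0) (s : F) :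
    det (pg u s) w = (det u w * s + w.1) / u.1 := by
  unfold det pg
  field_simp
  ring

lemma det_pg_ph {u w : F × F} (hu : u.1 ≠ 0) {s : F} (hs : det u w * s + w.1 ≠ 0) :
    det (pg u s) (ph u w s) = 1 := by
  have h0 : (2 : F) = 0 := CharTwo.two_eq_zero
  set D := (det u w * s + w.1) / u.1 with hD
  have hD0 : D ≠ 0 := div_ne_zero hs hu
  have h1 : det (pg u s) (ph u w s) = (s * ((1 + u.2 * s) / u.1 + w.2) +
      (1 + u.2 * s) / u.1 * (s + w.1)) / D := by
    unfold det pg ph
    simp only []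
    ring
  have h2 : s * ((1 + u.2 * s) / u.1 + w.2) + (1 + u.2 * s) / u.1 * (s + w.1) = D := by
    have := det_pg_w (w := w) hu s
    rw [← hD] at this
    rw [← this]
    unfold det pg
    linear_combination (s * (1 + u.2 * s) / u.1) * h0
  rw [h1, h2, div_self hD0]

lemma det_ph_w {u w : F × F} (hu : u.1 ≠ 0) {s : F} (hs : det u w * s + w.1 ≠ 0) :
    det (ph u w s) w = 1 := by
  have h0 : (2 : F) = 0 := CharTwo.two_eq_zero
  set D := (det u w * s + w.1) / u.1 with hD
  have hD0 : D ≠ 0 := div_ne_zero hs hu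
  have h1 : det (ph u w s) w = ((s + w.1) * w.2 + ((1 + u.2 * s) / u.1 + w.2) * w.1) / D := by
    unfold ph
    rw [← hD]
    unfold det
    simp only []
    ring
  have h2 : (s + w.1) * w.2 + ((1 + u.2 * s) / u.1 + w.2) * w.1 = D := by
    have := det_pg_w (w := w) hu s
    rw [← hD] at this
    rw [← this]
    unfold det pg
    linear_combination (w.1 * w.2) * h0
  rw [h1, h2, div_self hD0]

variable [Fintype F] [DecidableEq F] {χ : F → ℤ}

/-- The main statement over a field of characteristic two. -/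
lemma core (h : IsChar χ) (hq : 1024 ≤ Fintype.card F)
    (hbig : 4 * (Fintype.card F) ^ 4 * 15 ^ (Fintype.card F / 16) < 16 ^ (Fintype.card F / 16)) :
    ∃ f : F × F → Fin 4, ∀ u w : F × F, χ u.1 = -1 → χ w.1 = -1 → u ≠ w → det u w ≠ 1 →
      ∀ c : Fin 4, ∃ v v' : F × F, χ v.1 = -1 ∧ χ v'.1 = -1 ∧ f v = c ∧ f v' = c ∧
        det u v = 1 ∧ det v v' = 1 ∧ det v' w = 1 := by
  classical
  set q := Fintype.card F with hqdef
  set I : Finset ((F × F) × (F × F)) := univ.filter (fun p =>
    χ p.1.1 = -1 ∧ χ p.2.1 = -1 ∧ p.1 ≠ p.2 ∧ det p.1 p.2 ≠ 1) with hI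
  set S : ((F × F) × (F × F)) → Finset F := fun p =>
    (Par χ p.1.1 p.2.1 (det p.1 p.2)).filter (fun s => det (pg p.1 s) p.2 ≠ 1) with hS
  have nz : ∀ x : F, χ x = -1 → x ≠ 0 := by
    rintro x hx rfl; rw [h.zero] at hx; norm_num at hx
  have hmem : ∀ p ∈ I, χ p.1.1 = -1 ∧ χ p.2.1 = -1 ∧ p.1 ≠ p.2 ∧ det p.1 p.2 ≠ 1 := by
    intro p hp; rw [hI, mem_filter] at hp; exact hp.2
  have hSmem : ∀ p, ∀ s ∈ S p, χ s = -1 ∧ det p.1 p.2 * s + p.2.1 ≠ 0 ∧
      χ (p.1.1 * (s + p.2.1) / (det p.1 p.2 * s + p.2.1)) = -1 ∧ det (pg p.1 s) p.2 ≠ 1 := by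
    intro p s hs
    simp only [hS, Par, mem_filter, mem_univ, true_and] at hs
    tauto
  have hcard : ∀ p ∈ I, q / 16 ≤ (S p).card := by
    intro p hp
    obtain ⟨h1, h2, h3, h4⟩ := hmem p hp
    have hu := nz _ h1
    have hc := count h hq h1 h2 h4 (by
      intro hd hab
      apply h3
      refine Prod.ext hab ?_
      have : p.1.1 * (p.2.2 + p.1.2) = 0 := by
        unfold det at hd
        rw [← hab] at hd
        linear_combination hd
      rcases mul_eq_zero.mp this with h5 | h5
      · exact absurd h5 hu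
      · have h0 : (2 : F) = 0 := CharTwo.two_eq_zero
        linear_combination h5 - p.2.2 * h0)
    have hsplit := card_filter_add_card_filter_not (s := Par χ p.1.1 p.2.1 (det p.1 p.2))
      (fun s => det (pg p.1 s) p.2 ≠ 1)
    have hone : ((Par χ p.1.1 p.2.1 (det p.1 p.2)).filter
        (fun s => ¬ (det (pg p.1 s) p.2 ≠ 1))).card ≤ 1 := by
      rw [card_le_one]
      intro s hs t ht
      rw [mem_filter, not_not] at hs ht
      have := common_unique h3 (x := pg p.1 s) (x' := pg p.1 t)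
        (by rw [det_comm]; exact det_pg hu s) hs.2 (by rw [det_comm]; exact det_pg hu t) ht.2
      exact congrArg Prod.fst this
    have : (S p).card + 1 ≥ (Par χ p.1.1 p.2.1 (det p.1 p.2)).card := by
      simp only [hS]; omega
    omega
  obtain ⟨f, hf⟩ := colouring (α := F × F) (σ := F) (q / 16) I S (fun p => pg p.1)
    (fun p => ph p.1 p.2) hcard
    (by
      intro p _ s _ t _ hst
      exact congrArg Prod.fst hst)
    (by
      intro p hp s hs t ht hst
      obtain ⟨h1, h2, h3, h4⟩ := hmem p hp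
      have hu := nz _ h1
      obtain ⟨-, s2, -, -⟩ := hSmem p s hs
      obtain ⟨-, t2, -, -⟩ := hSmem p t ht
      have hne : p.1 ≠ ph p.1 p.2 s := by
        intro he
        apply h4
        have := det_ph_w hu s2
        rw [← he] at this
        exact this
      have := common_unique hne (x := pg p.1 s) (x' := pg p.1 t)
        (by rw [det_comm]; exact det_pg hu s) (det_pg_ph hu s2)
        (by rw [det_comm]; exact det_pg hu t) (by rw [hst]; exact det_pg_ph hu t2)
      exact congrArg Prod.fst this)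
    (by
      intro p hp s hs t ht hst
      obtain ⟨h1, h2, h3, h4⟩ := hmem p hp
      have hu := nz _ h1
      obtain ⟨-, -, -, s4⟩ := hSmem p s hs
      obtain ⟨-, t2, -, -⟩ := hSmem p t ht
      apply s4
      change pg p.1 s = ph p.1 p.2 t at hst
      rw [hst]
      exact det_ph_w hu t2)
    (by
      have hIc : I.card ≤ q ^ 4 := by
        calc I.card ≤ (univ : Finset ((F × F) × (F × F))).card := card_le_card (subset_univ _)
          _ = q ^ 4 := by
            rw [card_univ, Fintype.card_prod, Fintype.card_prod, ← hqdef]; ring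
      calc 4 * I.card * 15 ^ (q / 16) ≤ 4 * q ^ 4 * 15 ^ (q / 16) := by gcongr
        _ < _ := hbig)
  refine ⟨f, fun u w h1 h2 h3 h4 c => ?_⟩
  have hp : (u, w) ∈ I := by
    rw [hI, mem_filter]; exact ⟨mem_univ _, h1, h2, h3, h4⟩
  obtain ⟨s, hs, hc1, hc2⟩ := hf (u, w) hp c
  obtain ⟨s1, s2, s3, s4⟩ := hSmem (u, w) s hs
  have hu := nz _ h1
  refine ⟨pg u s, ph u w s, s1, ?_, hc1, hc2, det_pg hu s, det_pg_ph hu s2, det_ph_w hu s2⟩
  have : (ph u w s).1 = u.1 * (s + w.1) / (det u w * s + w.1) := by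
    change (s + w.1) / ((det u w * s + w.1) / u.1) = _
    change det u w * s + w.1 ≠ 0 at s2
    field_simp
  rw [this]
  exact s3

omit [CharP F 2] in
lemma card_minus (h : IsChar χ) :
    2 * (univ.filter (fun u : F × F => χ u.1 = -1)).card = Fintype.card F ^ 2 := by
  have h1 : 2 * (univ.filter (fun x : F => χ x = -1)).card = Fintype.card F := by
    have hs := h.sum_one
    have h2 : ∀ x : F, χ x = 1 - 2 * (if χ x = -1 then 1 else 0) := by
      intro x; rcases h.pm x with h3 | h3 <;> rw [h3] <;> norm_num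
    rw [sum_congr rfl (fun x _ => h2 x), sum_sub_distrib, ← mul_sum] at hs
    have h3 : ((univ.filter (fun x : F => χ x = -1)).card : ℤ) =
        ∑ x : F, (if χ x = -1 then (1 : ℤ) else 0) := by
      rw [card_filter]; push_cast; rfl
    rw [← h3] at hs
    simp only [sum_const, card_univ, nsmul_eq_mul, mul_one] at hs
    omega
  have h4 : univ.filter (fun u : F × F => χ u.1 = -1) =
      (univ.filter (fun x : F => χ x = -1)) ×ˢ (univ : Finset F) := by
    ext u; simp
  rw [h4, card_product, card_univ, ← mul_assoc, h1, sq]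

end Graph

/-- `C₄`-saturated graphs -/
def Sat4 {V : Type} (G : SimpleGraph V) : Prop :=
  ¬ (SimpleGraph.cycleGraph 4).IsContained G ∧
    ∀ u v : V, u ≠ v → ¬ G.Adj u v →
      (SimpleGraph.cycleGraph 4).IsContained (G ⊔ SimpleGraph.edge u v)

lemma fieldStep {F : Type} [Field F] [Fintype F] [DecidableEq F] [CharP F 2] {χ : F → ℤ}
    (h : IsChar χ) (hq : 1024 ≤ Fintype.card F)
    (hbig : 4 * (Fintype.card F) ^ 4 * 15 ^ (Fintype.card F / 16) < 16 ^ (Fintype.card F / 16))
    (n : ℕ) (hn1 : (Fintype.card F) ^ 2 ≤ 8 * n) (hn2 : 2 * n ≤ (Fintype.card F) ^ 2) :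
    ∃ G : SimpleGraph (Fin n), Sat4 G ∧ G.CliqueFree 3 := by
  classical
  obtain ⟨f, hf⟩ := core h hq hbig
  set A := univ.filter (fun u : F × F => χ u.1 = -1) with hA
  have hAc := card_minus h
  rw [← hA] at hAc
  -- a small colour class
  obtain ⟨c, hc⟩ : ∃ c : Fin 4, 4 * (A.filter (fun u => f u = c)).card ≤ A.card := by
    by_contra hcon
    push Not at hcon
    have h1 : A.card = ∑ c : Fin 4, (A.filter (fun u => f u = c)).card :=
      card_eq_sum_card_fiberwise (fun x _ => mem_univ _)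
    have h2 : ∑ c : Fin 4, (A.card + 1) ≤ ∑ c : Fin 4, 4 * (A.filter (fun u => f u = c)).card :=
      sum_le_sum fun c _ => hcon c
    rw [← mul_sum, ← h1] at h2
    simp only [sum_const, card_univ, Fintype.card_fin, smul_eq_mul] at h2
    omega
  obtain ⟨B, hB1, hB2, hB3⟩ := exists_subsuperset_card_eq (filter_subset (fun u => f u = c) A)
    (n := n) (by omega) (by omega)
  let e : Fin n ≃ B := (Finset.equivFinOfCardEq hB3).symm
  have hχ : ∀ i : Fin n, χ (e i).1.1 = -1 := by
    intro i
    have := hB2 (e i).2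
    rw [hA, mem_filter] at this
    exact this.2
  have einj : ∀ {i j : Fin n}, (e i).1 = (e j).1 → i = j := fun hij =>
    e.injective (Subtype.ext hij)
  let G : SimpleGraph (Fin n) :=
    { Adj := fun i j => det (e i).1 (e j).1 = 1
      symm := ⟨fun i j hij => by rw [det_comm]; exact hij⟩
      loopless := ⟨fun i hi => by rw [det_self] at hi; exact zero_ne_one hi⟩ }
  have hGadj : ∀ i j, G.Adj i j ↔ det (e i).1 (e j).1 = 1 := fun i j => Iff.rfl
  refine ⟨G, ⟨?_, ?_⟩, ?_⟩
  · rintro ⟨φ⟩
    have a01 : G.Adj (φ 0) (φ 1) := φ.toHom.map_adj (by decide)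
    have a12 : G.Adj (φ 1) (φ 2) := φ.toHom.map_adj (by decide)
    have a23 : G.Adj (φ 2) (φ 3) := φ.toHom.map_adj (by decide)
    have a30 : G.Adj (φ 3) (φ 0) := φ.toHom.map_adj (by decide)
    rw [hGadj] at a01 a12 a23 a30
    have n02 : (e (φ 0)).1 ≠ (e (φ 2)).1 := fun hh => by
      have := φ.injective (einj hh); exact absurd this (by decide)
    have := common_unique n02 (x := (e (φ 1)).1) (x' := (e (φ 3)).1)
      (by rw [det_comm]; exact a01) a12 a30 (by rw [det_comm]; exact a23)
    have := φ.injective (einj this); exact absurd this (by decide)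
  · intro i j hij hadj
    rw [hGadj] at hadj
    obtain ⟨v, v', hv, hv', hfv, hfv', d1, d2, d3⟩ := hf (e i).1 (e j).1 (hχ i) (hχ j)
      (fun hh => hij (einj hh)) hadj c
    have hvB : v ∈ B := hB1 (by rw [mem_filter, hA, mem_filter]; exact ⟨⟨mem_univ _, hv⟩, hfv⟩)
    have hvB' : v' ∈ B := hB1 (by
      rw [mem_filter, hA, mem_filter]; exact ⟨⟨mem_univ _, hv'⟩, hfv'⟩)
    obtain ⟨k, hk⟩ := e.surjective ⟨v, hvB⟩
    obtain ⟨l, hl⟩ := e.surjective ⟨v', hvB'⟩
    have ek : (e k).1 = v := congrArg Subtype.val hk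
    have el : (e l).1 = v' := congrArg Subtype.val hl
    rw [← ek] at d1 d2
    rw [← el] at d2 d3
    have g1 : G.Adj i k := d1
    have g2 : G.Adj k l := d2
    have g3 : G.Adj l j := d3
    have nil : i ≠ l := fun hh => by
      apply hadj; rw [hh]; exact d3
    have nkj : k ≠ j := fun hh => by
      apply hadj; rw [← hh]; exact d1
    have hedge : (SimpleGraph.edge i j).Adj j i := by
      rw [SimpleGraph.edge_adj]; exact ⟨Or.inr ⟨rfl, rfl⟩, hij.symm⟩
    refine ⟨⟨⟨![i, k, l, j], ?_⟩, ?_⟩⟩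
    · have key : ∀ a b : Fin 4, (SimpleGraph.cycleGraph 4).Adj a b → a < b →
          (G ⊔ SimpleGraph.edge i j).Adj (![i, k, l, j] a) (![i, k, l, j] b) := by
        intro a b hab hlt
        fin_cases a <;> fin_cases b <;>
          first
          | exact absurd hlt (by decide)
          | exact absurd hab (by decide)
          | exact Or.inl g1
          | exact Or.inl g2
          | exact Or.inl g3
          | exact Or.inr hedge.symm
      intro a b hab
      rcases lt_trichotomy a b with h1 | h1 | h1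
      · exact key a b hab h1
      · exact absurd hab (by rw [h1]; exact SimpleGraph.irrefl _)
      · exact (key b a hab.symm h1).symm
    · intro a b hab
      have n1 := g1.ne
      have n2 := g2.ne
      have n3 := g3.ne
      fin_cases a <;> fin_cases b <;>
        first
        | rfl
        | (exfalso; revert hab; simp [hij, nil, nkj, n1, n2, n3, hij.symm, nil.symm, nkj.symm,
            n1.symm, n2.symm, n3.symm])
  · intro s hs
    rw [SimpleGraph.is3Clique_iff] at hs
    obtain ⟨a, b, c', hab, hac, hbc, -⟩ := hs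
    rw [hGadj] at hab hac hbc
    have := tri_fst hab hbc hac
    have h1 := hχ c'
    rw [this, h.add, hχ a, hχ b] at h1
    norm_num at h1

lemma exists_char (F : Type) [Field F] [Algebra (ZMod 2) F] : ∃ χ : F → ℤ, IsChar χ := by
  obtain ⟨φ, hφ⟩ := Module.Projective.exists_dual_eq_one (ZMod 2) (one_ne_zero (α := F))
  refine ⟨fun x => if φ x = 0 then 1 else -1, ⟨fun x => ?_, fun x y => ?_, 1, ?_⟩⟩
  · split_ifs <;> simp
  · rw [map_add]
    generalize φ x = a
    generalize φ y = b
    revert a b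
    decide
  · simp [hφ]

lemma growth : ∃ Q₀ : ℕ, ∀ Q ≥ Q₀, 4 * (16 * Q) ^ 4 * 15 ^ Q < 16 ^ Q := by
  have h1 := tendsto_pow_const_mul_const_pow_of_lt_one 4 (r := (15 / 16 : ℝ)) (by norm_num)
    (by norm_num)
  have h2 := h1.eventually (gt_mem_nhds (show (0 : ℝ) < 1 / (4 * 16 ^ 4) by norm_num))
  obtain ⟨Q₀, hQ⟩ := Filter.eventually_atTop.mp h2
  refine ⟨Q₀, fun Q hQ' => ?_⟩
  have h3 := hQ Q hQ'
  have h4 : ((4 * (16 * Q) ^ 4 * 15 ^ Q : ℕ) : ℝ) < ((16 ^ Q : ℕ) : ℝ) := by
    push_cast
    have h16 : (0 : ℝ) < 16 ^ Q := by positivity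
    rw [div_pow, ← mul_div_assoc, div_lt_iff₀ h16] at h3
    have : (4 : ℝ) * (16 * (Q : ℝ)) ^ 4 * 15 ^ Q = 4 * 16 ^ 4 * ((Q : ℝ) ^ 4 * 15 ^ Q) := by ring
    rw [this]
    calc (4 : ℝ) * 16 ^ 4 * ((Q : ℝ) ^ 4 * 15 ^ Q) < 4 * 16 ^ 4 * (1 / (4 * 16 ^ 4) * 16 ^ Q) := by
          apply mul_lt_mul_of_pos_left h3; norm_num
      _ = 16 ^ Q := by ring
  exact_mod_cast h4

theorem main : ∃ n₀ : ℕ, ∀ n ≥ n₀, ∃ G : SimpleGraph (Fin n),
    Sat4 G ∧ G.CliqueFree 3 := by
  classical
  obtain ⟨Q₀, hQ⟩ := growth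
  set K := Q₀ + 10 with hK
  refine ⟨4 ^ K, fun n hn => ?_⟩
  have hex : ∃ k, K ≤ k ∧ 2 * n ≤ 4 ^ k := by
    refine ⟨max K (2 * n), le_max_left _ _, ?_⟩
    calc 2 * n ≤ max K (2 * n) := le_max_right _ _
      _ ≤ 4 ^ (max K (2 * n)) := (Nat.lt_pow_self (by norm_num)).le
  obtain ⟨hk1, hk2⟩ := Nat.find_spec hex
  set k := Nat.find hex with hk
  have hlow : 4 ^ k ≤ 8 * n := by
    by_cases hkK : k = K
    · rw [hkK]; omega
    · have hlt : K ≤ k - 1 := by omega
      have hmin := Nat.find_min hex (show k - 1 < Nat.find hex by omega)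
      push Not at hmin
      have h1 := hmin hlt
      have h2 : 4 ^ k = 4 * 4 ^ (k - 1) := by
        rw [← pow_succ']; congr 1; omega
      omega
  have hk0 : k ≠ 0 := by omega
  haveI : Fact (Nat.Prime 2) := ⟨Nat.prime_two⟩
  let F := GaloisField 2 k
  haveI : Finite F := Nat.finite_of_card_ne_zero (by
    rw [GaloisField.card 2 k hk0]; positivity)
  letI : Fintype F := Fintype.ofFinite F
  haveI : CharP F 2 := inferInstance
  obtain ⟨χ, hχ⟩ := exists_char F
  have hcard : Fintype.card F = 2 ^ k := by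
    rw [← Nat.card_eq_fintype_card]; exact GaloisField.card 2 k hk0
  have h16 : 2 ^ k = 16 * 2 ^ (k - 4) := by
    have : k = 4 + (k - 4) := by omega
    conv_lhs => rw [this, pow_add]
    norm_num
  have hsq : (2 ^ k) ^ 2 = 4 ^ k := by
    rw [← pow_mul, mul_comm, pow_mul]; norm_num
  apply fieldStep hχ
  · rw [hcard]
    calc 1024 = 2 ^ 10 := by norm_num
      _ ≤ 2 ^ k := Nat.pow_le_pow_right (by norm_num) (by omega)
  · rw [hcard, h16, Nat.mul_div_cancel_left _ (by norm_num : 0 < 16)]
    apply hQ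
    have : k - 4 < 2 ^ (k - 4) := Nat.lt_pow_self (by norm_num)
    omega
  · rw [hcard, hsq]; exact hlow
  · rw [hcard, hsq]; exact hk2

end Pool.Agent.MP02bc1b.Core
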